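import Pool.Agent.Helper92.BT.R4b
import Pool.Agent.Helper12.BT.InH

/-!
# BT, piece R4
-/

set_option autoImplicit false

namespace Pool.Agent.Helper92.BT

open Finset Pool.Agent.Helper19.NF Pool.Agent.Helper74.NW Pool.Agent.Helper96.BT
open Pool.Agent.Helper74.NE (fine fine_apply)
open Pool.Agent.Helper99.NQ (pos)
open Pool.Agent.Helper96.PH (Det CB opn)
open Pool.Agent.Helper74.NS (Expands)

variable {n D m S : ℕ} [NeZero m] {F B W G Z : Type} [Field F] [Fintype F] [AddCommGroup B] [AddCommGroup W]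
  [Module F W] [Fintype W] [Fintype B] (enc : W →+ (Fin D × Fin m → B))

/-- R4: all types together, from R1, R2, R3 (`s1`, `s2` matter on `A` only). -/
theorem bad_bound (hE : Mds enc (4 * D)) (P : NProg (B × W) F Z S) (hP : Det P) (g : Fin D → Equiv.Perm (Fin n))
    (x0 : Fin n × Fin m → B) (h e T a R q q' d : ℕ) (hX : Expands g a) (ha : 1 ≤ a) (hh : 0 < h)
    (hL : h + 1 ≤ Fintype.card W) (he : e < m) (hq' : q ≤ 2 ^ q') (hR : q' + d ≤ R) (r : ℝ) (hr : 0 < r)
    (hrT : (T : ℝ) ≤ (1 - r) * Fintype.card (B × W))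
    (hrh : (m * h + e * Fintype.card W : ℝ) ≤ m * Fintype.card W * r / 2) :
    (Nat.card {I // CF (fine g) x0 R (tab enc I) ∧ ∃ (L : List (Fin S × ℕ × Fin S)) (c : List (B × W)), L.length ≤ q ∧
        (∀ p ∈ L, p.2.1 ≤ 2 ^ d) ∧ RunL P I L c ∧ Fintype.card (B × W) ≤ (free c).card + T ∧
        a ≤ (comp enc g x0 h e R I (free c)).card} : ℝ) ≤
      errA n D m a R S q d e r ((h : ℝ) / Fintype.card W) * Nat.card (B × W → F) :=
  bad_bound_of2 enc P g x0 h e T a R q q' d hX ha hL he hq' hR r fun i L1 L2 A h1 h2 _ =>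
    Pool.Agent.Helper12.BT.card_inH enc hE P hP g x0 h e T i L1 L2 A h1 h2 hh r hr hrT hrh

end Pool.Agent.Helper92.BT
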