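import Pool.Agent.Helper96.BT.Defs
import Pool.Agent.Helper66.NE.Good
import Pool.Agent.Helper58.BT.InD

/-!
# BT, piece R4: all types of bad inputs together
-/

set_option autoImplicit false

namespace Pool.Agent.Helper92.BT

open Finset Pool.Agent.Helper19.NF Pool.Agent.Helper74.NW Pool.Agent.Helper96.BT
open Pool.Agent.Helper74.NE (fine fine_apply)
open Pool.Agent.Helper99.NQ (pos)
open Pool.Agent.Helper96.PH (Det CB opn)
open Pool.Agent.Helper74.NS (Expands)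
open Pool.Agent.Helper66.NE (card_le_sum)

/-- The list of pieces given by a function on `Fin q`. -/
def pieces {S d q : ℕ} (f : Fin q → Option (Fin S × Fin (2 ^ d + 1) × Fin S)) : List (Fin S × ℕ × Fin S) :=
  (List.ofFn f).filterMap (Option.map fun x => (x.1, x.2.1.val, x.2.2))

theorem exists_pieces {S d : ℕ} (q : ℕ) (L : List (Fin S × ℕ × Fin S)) (hq : L.length ≤ q)
    (hk : ∀ p ∈ L, p.2.1 ≤ 2 ^ d) :
    ∃ f : Fin q → Option (Fin S × Fin (2 ^ d + 1) × Fin S), pieces f = L := by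
  induction L generalizing q with
  | nil =>
    refine ⟨fun _ => none, ?_⟩
    rw [pieces, List.filterMap_eq_nil_iff]
    intro x hx
    rw [List.mem_ofFn] at hx
    obtain ⟨i, rfl⟩ := hx
    rfl
  | cons p L ih =>
    obtain _ | q := q
    · simp at hq
    · obtain ⟨f, hf⟩ := ih q (by simpa using hq) fun p' hp' => hk p' (List.mem_cons_of_mem _ hp')
      have hp := hk p List.mem_cons_self
      refine ⟨Fin.cons (some (p.1, ⟨p.2.1, Nat.lt_succ_of_le hp⟩, p.2.2)) f, ?_⟩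
      rw [pieces, List.ofFn_succ]
      simp only [Fin.cons_zero, Fin.cons_succ]
      rw [List.filterMap_cons]
      simp only [Option.map_some]
      rw [pieces] at hf
      rw [hf]

/-- The function on the nodes with the given values on `A`. -/
noncomputable def ext {X : Type} {n a : ℕ} (ha : 1 ≤ a) (A : Finset (Fin n)) (hA : A.card = a) (r : Fin a → X)
    (u : Fin n) : X :=
  if hu : u ∈ A then r ((A.orderIsoOfFin hA).symm ⟨u, hu⟩) else r ⟨0, ha⟩

theorem ext_eq {X : Type} {n a : ℕ} (ha : 1 ≤ a) (A : Finset (Fin n)) (hA : A.card = a) (f : Fin n → X)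
    {u : Fin n} (hu : u ∈ A) : ext ha A hA (fun j => f (A.orderIsoOfFin hA j)) u = f u := by
  rw [ext, dif_pos hu, OrderIso.apply_symm_apply]

section net

variable {n D m S : ℕ} [NeZero m] {F B W G Z : Type} [Field F] [Fintype F] [AddCommGroup B] [AddCommGroup W]
  [Module F W] [Fintype W] [Fintype B] (enc : W →+ (Fin D × Fin m → B))

omit [Fintype F] in
theorem inD_congr {P : NProg (B × W) F Z S} {g : Fin D → Equiv.Perm (Fin n)} {x0 : Fin n × Fin m → B}
    {h e T i : ℕ} {L1 L2 : List (Fin S × ℕ × Fin S)} {A : Finset (Fin n)} {s1 s2 s1' s2' : Fin n → Fin D}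
    {I : B × W → F} (H : InD P enc g x0 h e T i L1 L2 A s1 s2 I) (e1 : ∀ u ∈ A, s1' u = s1 u)
    (e2 : ∀ u ∈ A, s2' u = s2 u) : InD P enc g x0 h e T i L1 L2 A s1' s2' I := by
  obtain ⟨c1, c2, r1, r2, hT, hf, hm1, hm2⟩ := H.run
  refine ⟨H.cf, c1, c2, r1, r2, hT, hf, fun u hu => ?_, fun u hu => ?_⟩
  · rw [e1 u hu]
    exact hm1 u hu
  · rw [e2 u hu]
    exact hm2 u hu

/-- R4 from R1 and R2. -/
theorem bad_bound_of (P : NProg (B × W) F Z S) (g : Fin D → Equiv.Perm (Fin n))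
    (x0 : Fin n × Fin m → B) (h e T a R q d : ℕ) (ha : 1 ≤ a) (r : ℝ)
    (H1 : ∀ I : B × W → F, CF (fine g) x0 R (tab enc I) →
      (∃ (L : List (Fin S × ℕ × Fin S)) (c : List (B × W)), L.length ≤ q ∧
        (∀ p ∈ L, p.2.1 ≤ 2 ^ d) ∧ RunL P I L c ∧ Fintype.card (B × W) ≤ (free c).card + T ∧
        a ≤ (comp enc g x0 h e R I (free c)).card) →
      ∃ i < R, ∃ L1 L2 A s1 s2, L1.length ≤ q ∧ L2.length ≤ q ∧ (∀ p ∈ L1, p.2.1 ≤ 2 ^ d) ∧
        (∀ p ∈ L2, p.2.1 ≤ 2 ^ d) ∧ A.card = a ∧ InD P enc g x0 h e T i L1 L2 A s1 s2 I)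
    (H2 : ∀ i L1 L2 (A : Finset (Fin n)) h1 h2, A.card = a →
      (Nat.card {I // InH P enc g x0 h e T i L1 L2 A h1 h2 I} : ℝ) ≤
        (1 / ((h : ℝ) / Fintype.card W)) ^ (2 * A.card) * (4 * (m + 2) / (m * r) ^ 2) ^ A.card *
          Nat.card (B × W → F)) :
    (Nat.card {I // CF (fine g) x0 R (tab enc I) ∧ ∃ (L : List (Fin S × ℕ × Fin S)) (c : List (B × W)), L.length ≤ q ∧
        (∀ p ∈ L, p.2.1 ≤ 2 ^ d) ∧ RunL P I L c ∧ Fintype.card (B × W) ≤ (free c).card + T ∧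
        a ≤ (comp enc g x0 h e R I (free c)).card} : ℝ) ≤
      errA n D m a R S q d e r ((h : ℝ) / Fintype.card W) * Nat.card (B × W → F) := by
  classical
  let V : Type := B × W → F
  let Y : Type := Fin q → Option (Fin S × Fin (2 ^ d + 1) × Fin S)
  let τ : Type := Fin R × {A : Finset (Fin n) // A.card = a} × (Fin a → Fin D) × (Fin a → Fin D) × Y × Y
  let Q : V → Prop := fun I => CF (fine g) x0 R (tab enc I) ∧
    ∃ (L : List (Fin S × ℕ × Fin S)) (c : List (B × W)), L.length ≤ q ∧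
        (∀ p ∈ L, p.2.1 ≤ 2 ^ d) ∧ RunL P I L c ∧ Fintype.card (B × W) ≤ (free c).card + T ∧
        a ≤ (comp enc g x0 h e R I (free c)).card
  let Q' : τ → V → Prop := fun x I => InD P enc g x0 h e T x.1 (pieces x.2.2.2.2.1) (pieces x.2.2.2.2.2)
    x.2.1.1 (ext ha x.2.1.1 x.2.1.2 x.2.2.1) (ext ha x.2.1.1 x.2.1.2 x.2.2.2.1) I
  have hty : ∀ I : V, Q I → ∃ x : τ, Q' x I := by
    rintro I ⟨hI, hI'⟩
    obtain ⟨i, hi, L1, L2, A, s1, s2, hL1, hL2, hk1, hk2, hA, hD⟩ := H1 I hI hI'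
    obtain ⟨f1, hf1⟩ := exists_pieces q L1 hL1 hk1
    obtain ⟨f2, hf2⟩ := exists_pieces q L2 hL2 hk2
    refine ⟨(⟨i, hi⟩, ⟨A, hA⟩, fun j => s1 (A.orderIsoOfFin hA j), fun j => s2 (A.orderIsoOfFin hA j), f1, f2), ?_⟩
    show InD P enc g x0 h e T i (pieces f1) (pieces f2) A _ _ I
    rw [hf1, hf2]
    exact inD_congr enc hD (fun u hu => ext_eq ha A hA s1 hu) fun u hu => ext_eq ha A hA s2 hu
  set δ : ℝ := (1 / ((h : ℝ) / Fintype.card W)) ^ (2 * a) * (4 * (m + 2) / (m * r) ^ 2) ^ a *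
    Nat.card (B × W → F) with hδ
  have hb : ∀ x : τ, (Nat.card {I : V // Q' x I} : ℝ) ≤ ((m : ℝ) / (e + 1)) ^ (2 * a) * δ := by
    intro x
    have h1 := Pool.Agent.Helper58.BT.card_inD enc P g x0 h e T x.1 (pieces x.2.2.2.2.1) (pieces x.2.2.2.2.2)
      x.2.1.1 (ext ha x.2.1.1 x.2.1.2 x.2.2.1) (ext ha x.2.1.1 x.2.1.2 x.2.2.2.1) δ fun h1 h2 => by
        have := H2 x.1 (pieces x.2.2.2.2.1) (pieces x.2.2.2.2.2) x.2.1.1 h1 h2 x.2.1.2
        rwa [x.2.1.2] at this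
    rwa [x.2.1.2] at h1
  have hc : Fintype.card τ = R * (n.choose a * (D ^ a * (D ^ a * ((S * ((2 ^ d + 1) * S) + 1) ^ q *
      (S * ((2 ^ d + 1) * S) + 1) ^ q)))) := by
    show Fintype.card (Fin R × {A : Finset (Fin n) // A.card = a} × (Fin a → Fin D) × (Fin a → Fin D) ×
      (Fin q → Option (Fin S × Fin (2 ^ d + 1) × Fin S)) × (Fin q → Option (Fin S × Fin (2 ^ d + 1) × Fin S))) = _
    simp only [Fintype.card_prod, Fintype.card_fin, Fintype.card_fun, Fintype.card_finset_len, Fintype.card_option]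
  calc (Nat.card {I : V // Q I} : ℝ)
      ≤ ((∑ x : τ, Nat.card {I : V // Q' x I} : ℕ) : ℝ) := by
        exact_mod_cast card_le_sum hty
    _ = ∑ x : τ, (Nat.card {I : V // Q' x I} : ℝ) := by
        push_cast
        rfl
    _ ≤ ∑ _x : τ, ((m : ℝ) / (e + 1)) ^ (2 * a) * δ := Finset.sum_le_sum fun x _ => hb x
    _ = errA n D m a R S q d e r ((h : ℝ) / Fintype.card W) * Nat.card (B × W → F) := by
        rw [Finset.sum_const, Finset.card_univ, nsmul_eq_mul, hc, hδ, errA]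
        push_cast
        have e1 : ((S : ℝ) ^ 2 * (2 ^ d + 1) + 1) = S * ((2 ^ d + 1) * S) + 1 := by ring
        rw [e1, mul_pow (D : ℝ) _ (2 * a), mul_pow ((1 / ((h : ℝ) / Fintype.card W)) ^ 2) _ a, ← pow_mul,
          two_mul q, pow_add, two_mul a, pow_add (D : ℝ)]
        ring

end net

end Pool.Agent.Helper92.BT
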