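import Pool.Agent.Helper92.BT.R4
import Pool.Agent.Helper6.BT.Rec

/-!
# BT, piece R4 from R2
-/

set_option autoImplicit false

namespace Pool.Agent.Helper92.BT

open Finset Pool.Agent.Helper19.NF Pool.Agent.Helper74.NW Pool.Agent.Helper96.BT
open Pool.Agent.Helper74.NE (fine fine_apply)
open Pool.Agent.Helper99.NQ (pos)
open Pool.Agent.Helper96.PH (Det CB opn)
open Pool.Agent.Helper74.NS (Expands)

variable {n D m S : ℕ} [NeZero m] {F B W G Z : Type} [Field F] [Fintype F] [AddCommGroup B] [AddCommGroup W]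
  [Module F W] [Fintype W] [Fintype B] (enc : W →+ (Fin D × Fin m → B))

/-- R4 from R2. -/
theorem bad_bound_of2 (P : NProg (B × W) F Z S) (g : Fin D → Equiv.Perm (Fin n))
    (x0 : Fin n × Fin m → B) (h e T a R q q' d : ℕ) (hX : Expands g a) (ha : 1 ≤ a)
    (hL : h + 1 ≤ Fintype.card W) (he : e < m) (hq' : q ≤ 2 ^ q') (hR : q' + d ≤ R) (r : ℝ)
    (H2 : ∀ i L1 L2 (A : Finset (Fin n)) h1 h2, A.card = a →
      (Nat.card {I // InH P enc g x0 h e T i L1 L2 A h1 h2 I} : ℝ) ≤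
        (1 / ((h : ℝ) / Fintype.card W)) ^ (2 * A.card) * (4 * (m + 2) / (m * r) ^ 2) ^ A.card *
          Nat.card (B × W → F)) :
    (Nat.card {I // CF (fine g) x0 R (tab enc I) ∧ ∃ (L : List (Fin S × ℕ × Fin S)) (c : List (B × W)), L.length ≤ q ∧
        (∀ p ∈ L, p.2.1 ≤ 2 ^ d) ∧ RunL P I L c ∧ Fintype.card (B × W) ≤ (free c).card + T ∧
        a ≤ (comp enc g x0 h e R I (free c)).card} : ℝ) ≤
      errA n D m a R S q d e r ((h : ℝ) / Fintype.card W) * Nat.card (B × W → F) :=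
  bad_bound_of enc P g x0 h e T a R q d ha r
    (fun _I hcf ⟨_L, _c, hq, hk, hc, hT, hcomp⟩ =>
      Pool.Agent.Helper6.BT.exists_inD enc P g x0 h e T a R hX ha hL he hcf hc hq hq' hk hR hT hcomp) H2

end Pool.Agent.Helper92.BT
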